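import Pool.Agent.J4H9.BC.Stm

/-! Project BC, piece PTS: the points of a product. -/

set_option autoImplicit false

open CategoryTheory CategoryTheory.Limits AlgebraicGeometry

namespace Pool.Agent.J4H5.BC

open Pool.Agent.J4H9.BC

/-- the points as morphisms over the base -/
noncomputable def ptsEquiv {k : Type} [Field k] (B : Over (Spec (CommRingCat.of k))) (K : Type) [Field K]
    [Algebra k K] :
    Pts B K ≃ (Over.mk (Spec.map (CommRingCat.ofHom (algebraMap k K))) ⟶ B) where
  toFun x := Over.homMk x.1 x.2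
  invFun f := ⟨f.left, Over.w f⟩
  left_inv x := by
    apply Subtype.ext
    rfl
  right_inv f := by
    apply Over.OverMorphism.ext
    rfl

/-- morphisms to a product -/
noncomputable def prodEquiv {C : Type*} [Category C] {B D X : C} {p₁ : X ⟶ B} {p₂ : X ⟶ D}
    (h : IsLimit (BinaryFan.mk p₁ p₂)) (T : C) : (T ⟶ X) ≃ (T ⟶ B) × (T ⟶ D) where
  toFun f := (f ≫ p₁, f ≫ p₂)
  invFun g := (BinaryFan.IsLimit.lift' h g.1 g.2).1
  left_inv f := by
    apply BinaryFan.IsLimit.hom_ext h
    · exact (BinaryFan.IsLimit.lift' h (f ≫ p₁) (f ≫ p₂)).2.1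
    · exact (BinaryFan.IsLimit.lift' h (f ≫ p₁) (f ≫ p₂)).2.2
  right_inv g := by
    apply Prod.ext
    · exact (BinaryFan.IsLimit.lift' h g.1 g.2).2.1
    · exact (BinaryFan.IsLimit.lift' h g.1 g.2).2.2

/-- Piece PTS -/
theorem t_PTS : S_PTS := by
  intro k _ B C X p₁ p₂ ⟨h⟩ K _ _
  rw [Nat.card_congr (ptsEquiv X K), Nat.card_congr (ptsEquiv B K), Nat.card_congr (ptsEquiv C K),
    ← Nat.card_prod, Nat.card_congr (prodEquiv h _)]

end Pool.Agent.J4H5.BC
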